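import Mathlib
import Pool.Agent.H.MP_071fc1_co.C

set_option autoImplicit false

namespace Pool.Agent.Results.MP_071fc1_co.Yes

open Finset

/-- `N` is `ε`-good -/
def Good (ε : ℝ) (N : ℕ) : Prop :=
  ∀ δ : ℝ, 0 < δ → δ ≤ 1 → ∀ A : Finset ℤ, A ⊆ Finset.Icc 1 (N : ℤ) → δ * N ≤ A.card →
    ∃ y : ℤ, y ≠ 0 ∧ (δ ^ 2 - ε) * N ≤ ((A.filter fun x => x + y ^ 2 ∈ A).card : ℝ)

theorem result :
    (∃ c > (0 : ℝ), ∃ ε₀ > (0 : ℝ), ∀ ε : ℝ, 0 < ε → ε < ε₀ → ∀ N₀ : ℕ,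
      (∀ N ≥ N₀, Good ε N) → Real.exp (ε ^ (-c)) < N₀) ∧
    ∀ C > (0 : ℝ), ∃ ε₀ > (0 : ℝ), ∀ ε : ℝ, 0 < ε → ε < ε₀ → ∀ N₀ : ℕ,
      (∀ N ≥ N₀, Good ε N) → ε ^ (-C) < N₀ := by
  obtain ⟨t0, h0⟩ := Pool.Agent.H.MP_071fc1_co.main
  have bad : ∀ t ≥ t0, ∀ ε : ℝ, 0 < ε → ε * (32 * (t : ℝ) ^ 80) < 1 → ¬ Good ε ((2 ^ t) ^ 4) := by
    intro t ht ε e0 hε hG
    obtain ⟨A, c, c0, h1, h2⟩ := h0 t ht ε hε
    generalize hn : 2 ^ t = n at *
    have n0 : 0 < n := hn ▸ Nat.two_pow_pos t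
    generalize hN : n ^ 4 = N at *
    have N0 : (0 : ℝ) < N := by exact_mod_cast hN ▸ pow_pos n0 4
    have hinj : Function.Injective fun x : ℕ => (x : ℤ) + 1 := fun a b h => by simpa using h
    have hc := card_image_of_injective ((range N).filter fun x => x ∈ A) hinj
    have hle : (((range N).filter fun x => x ∈ A).card : ℝ) ≤ N := by
      exact_mod_cast (card_filter_le _ _).trans (card_range N).le
    generalize ha : (((range N).filter fun x => x ∈ A).card : ℝ) = a at h1 hle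
    obtain ⟨y, y0, hy⟩ := hG (a / N) (div_pos (by nlinarith) N0) ((div_le_one N0).mpr hle)
      (((range N).filter fun x => x ∈ A).image fun x : ℕ => (x : ℤ) + 1) (fun z hz => by
        simp only [mem_image, mem_filter, mem_range, mem_Icc] at hz ⊢
        omega) (by rw [hc, ha, div_mul_cancel₀ _ N0.ne'])
    have h3 : c ≤ ((a / N) ^ 2 - ε) * N := by
      have : ((a / N) ^ 2 - ε) * N = a - N / 4 - ε * N + (a - N / 2) ^ 2 / N := by field_simp; ring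
      have h4 : 0 ≤ (a - N / 2) ^ 2 / N := by positivity
      linarith
    have hy2 : y ^ 2 = (y.natAbs ^ 2 : ℕ) := by simp
    refine absurd (h3.trans hy) (not_le.mpr ?_)
    by_cases hm : y.natAbs ≤ n ^ 2
    · refine lt_of_le_of_lt ?_ (h2 y.natAbs (mem_Icc.mpr ⟨Int.natAbs_pos.mpr y0, hm⟩))
      rw [← card_image_of_injective _ hinj]
      refine Nat.cast_le.mpr (card_le_card fun z hz => ?_)
      simp only [mem_image, mem_filter, mem_range, hy2] at hz ⊢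
      obtain ⟨⟨x, hx, rfl⟩, x', hx', e⟩ := hz
      exact ⟨x, ⟨hx.1, hx.2, (by omega : x' = x + y.natAbs ^ 2) ▸ hx'.2⟩, rfl⟩
    · rw [filter_eq_empty_iff.mpr, card_empty, Nat.cast_zero]
      · exact c0
      · have : N < y.natAbs ^ 2 := by
          rw [← hN, show n ^ 4 = (n ^ 2) ^ 2 by ring]
          exact Nat.pow_lt_pow_left (not_le.mp hm) (by norm_num)
        intro z hz hz'
        simp only [mem_image, mem_filter, mem_range, hy2] at hz hz'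
        omega
  have first : ∃ ε₀ > (0 : ℝ), ∀ ε : ℝ, 0 < ε → ε < ε₀ → ∀ N₀ : ℕ,
      (∀ N ≥ N₀, Good ε N) → Real.exp (ε ^ (-(1 / 81 : ℝ))) < N₀ := by
    obtain ⟨M, hM⟩ : ∃ M : ℝ, M = t0 + 2 ^ 85 := ⟨_, rfl⟩
    have t00 : (0 : ℝ) ≤ t0 := Nat.cast_nonneg _
    have M0 : 0 < M := by rw [hM]; positivity
    refine ⟨1 / M ^ 81, by positivity, fun ε e0 e1 N₀ hN => ?_⟩
    obtain ⟨x, hx⟩ : ∃ x : ℝ, x = ε ^ (-(1 / 81 : ℝ)) := ⟨_, rfl⟩
    have x0 : 0 < x := hx ▸ Real.rpow_pos_of_pos e0 _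
    have x1 : ε * x ^ 81 = 1 := by
      rw [hx, ← Real.rpow_natCast, ← Real.rpow_mul e0.le]
      norm_num [Real.rpow_neg_one, e0.ne']
    have x2 : M < x := by
      refine lt_of_pow_lt_pow_left₀ 81 x0.le ?_
      rw [lt_div_iff₀ (by positivity), ← x1] at e1
      exact lt_of_mul_lt_mul_left e1 e0.le
    have c1 := Nat.le_ceil x
    have c2 := Nat.ceil_lt_add_one x0.le
    have hb := bad ⌈x⌉₊ (by
      have : (t0 : ℝ) ≤ ⌈x⌉₊ := by nlinarith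
      exact_mod_cast this) ε e0 (by
      calc ε * (32 * (⌈x⌉₊ : ℝ) ^ 80) ≤ ε * (32 * (2 * x) ^ 80) := by gcongr; nlinarith
        _ = ε * (2 ^ 85 * x ^ 80) := by ring
        _ < ε * (x * x ^ 80) := by gcongr; linarith
        _ = 1 := by rw [← x1]; ring)
    have h1 : (2 ^ ⌈x⌉₊) ^ 4 < N₀ := not_le.mp fun h => hb (hN _ h)
    rw [← hx]
    calc Real.exp x ≤ Real.exp (⌈x⌉₊ * 1) := by gcongr; linarith
      _ = Real.exp 1 ^ ⌈x⌉₊ := Real.exp_nat_mul _ _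
      _ ≤ 16 ^ ⌈x⌉₊ := by gcongr; linarith [Real.exp_one_lt_d9]
      _ = ((2 ^ ⌈x⌉₊) ^ 4 : ℕ) := by push_cast; rw [← pow_mul, mul_comm, pow_mul]; norm_num
      _ < _ := by exact_mod_cast h1
  refine ⟨⟨_, by norm_num, first⟩, fun C hC => ?_⟩
  obtain ⟨ε₀, e0, h1⟩ := first
  obtain ⟨M, hM⟩ := Filter.eventually_atTop.mp ((tendsto_exp_div_rpow_atTop (81 * C)).eventually
    (Filter.eventually_ge_atTop 1))
  have M0 : 0 < max M 1 := lt_max_of_lt_right one_pos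
  refine ⟨min ε₀ (1 / max M 1 ^ 81), lt_min e0 (by positivity), fun ε a0 a1 N₀ hN => ?_⟩
  refine lt_of_le_of_lt ?_ (h1 ε a0 (a1.trans_le (min_le_left _ _)) N₀ hN)
  obtain ⟨x, hx⟩ : ∃ x : ℝ, x = ε ^ (-(1 / 81 : ℝ)) := ⟨_, rfl⟩
  have x0 : 0 < x := hx ▸ Real.rpow_pos_of_pos a0 _
  have x1 : ε * x ^ 81 = 1 := by
    rw [hx, ← Real.rpow_natCast, ← Real.rpow_mul a0.le]
    norm_num [Real.rpow_neg_one, a0.ne']
  have x2 : max M 1 < x := by
    refine lt_of_pow_lt_pow_left₀ 81 x0.le ?_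
    have := a1.trans_le (min_le_right _ _)
    rw [lt_div_iff₀ (by positivity)] at this
    exact lt_of_mul_lt_mul_left (this.trans_eq x1.symm) a0.le
  have h2 := hM x ((le_max_left _ _).trans x2.le)
  rw [le_div_iff₀ (Real.rpow_pos_of_pos x0 _), one_mul] at h2
  rw [← hx]
  convert h2 using 1
  rw [hx, ← Real.rpow_mul a0.le]
  congr 1
  ring

end Pool.Agent.Results.MP_071fc1_co.Yes
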